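import Mathlib
import Pool.Agent.R643.OCCount

/-!
MP_fefe6a_co, Q1 (answer: yes). For every real `N` there are a finite graph `Γ` and a group `G` of
automorphisms of `Γ` such that the orbital chromatic polynomial of `(Γ, G)` has a real root `r`
with `r ≥ λ(Γ) + N`, where `λ(Γ)` is the largest real root of the chromatic polynomial.
-/

open Polynomial Finset Filter Topology
open Pool.Agent.R643.OC

namespace Pool.Agent.Results.MP_fefe6a_co.UnboundedGap

/-- `P` is the chromatic polynomial of `Γ`: its value at every positive integer `q` is the number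
of proper colourings with `q` colours. -/
def IsChromaticPoly {V : Type} (Γ : SimpleGraph V) (P : ℝ[X]) : Prop :=
  ∀ q : ℕ, 0 < q → P.eval (q : ℝ) = (Nat.card (Γ.Coloring (Fin q)) : ℝ)

/-- Two proper colourings with `q` colours are in the same orbit of `G ≤ Aut(Γ)`. -/
def orbitSetoid {V : Type} (Γ : SimpleGraph V) (G : Subgroup (Γ ≃g Γ)) (q : ℕ) :
    Setoid (Γ.Coloring (Fin q)) where
  r κ κ' := ∃ g ∈ G, ∀ v, κ' v = κ (g v)
  iseqv := (colSetoid Γ G q).iseqv

/-- `Q` is the orbital chromatic polynomial of `(Γ, G)`: its value at every positive integer `q`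
is the number of `G`-orbits on proper colourings with `q` colours. -/
def IsOrbitalChromaticPoly {V : Type} (Γ : SimpleGraph V) (G : Subgroup (Γ ≃g Γ)) (Q : ℝ[X]) :
    Prop :=
  ∀ q : ℕ, 0 < q → Q.eval (q : ℝ) = (Nat.card (Quotient (orbitSetoid Γ G q)) : ℝ)

noncomputable section
open Classical

variable {m : ℕ}

def YAp (s : Setoid (Fin m)) : ℝ[X] :=
  ∏ p : Fin m × Fin m, if s.r p.1 p.2 then (X - C 1) * (X - C 2) else (X - C 1) * (X - C 2) + C 1

def YBp (s : Setoid (Fin m)) : ℝ[X] :=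
  ∏ p : Fin m × Fin m, if s.r p.1 p.2 then (X - C 1) else (X - C 2)

def DP (k : ℕ) : ℝ[X] := ∏ j ∈ range k, (X - C (j : ℝ))

def AP (n : ℕ) (Y : ℝ[X]) : ℝ[X] := ∏ j ∈ range n, (Y + C (j : ℝ))

theorem eval_YAp (x : ℝ) (s : Setoid (Fin m)) : (YAp s).eval x = ya x s := by
  unfold YAp ya
  rw [eval_prod]
  apply Finset.prod_congr rfl
  intro p _
  split_ifs <;> simp only [eval_add, eval_mul, eval_sub, eval_X, eval_C]

theorem eval_YBp (x : ℝ) (s : Setoid (Fin m)) : (YBp s).eval x = yb x s := by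
  unfold YBp yb
  rw [eval_prod]
  apply Finset.prod_congr rfl
  intro p _
  split_ifs <;> simp only [eval_sub, eval_X, eval_C]

theorem eval_DP (x : ℝ) (k : ℕ) : (DP k).eval x = dsc k x := by
  unfold DP dsc
  rw [eval_prod]
  simp only [eval_sub, eval_X, eval_C]

theorem eval_AP (x : ℝ) (n : ℕ) (Y : ℝ[X]) : (AP n Y).eval x = asc n (Y.eval x) := by
  unfold AP asc
  rw [eval_prod]
  simp only [eval_add, eval_C]

/-- the chromatic polynomial -/
def PP (m N : ℕ) : ℝ[X] := ∑ s : Setoid (Fin m), DP (cls s) * (YAp s ^ N * YBp s ^ N)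

/-- the orbital chromatic polynomial -/
def QP (m N : ℕ) : ℝ[X] :=
  C (1 / ((N.factorial : ℝ) * (N.factorial : ℝ))) *
    ∑ s : Setoid (Fin m), DP (cls s) * (AP N (YAp s) * AP N (YBp s))

theorem eval_PP (m N : ℕ) (x : ℝ) : (PP m N).eval x = PF m N x := by
  unfold PP PF
  rw [eval_finsetSum]
  apply Finset.sum_congr rfl
  intro s _
  rw [eval_mul, eval_mul, eval_pow, eval_pow, eval_DP, eval_YAp, eval_YBp]

theorem eval_QP (m N : ℕ) (x : ℝ) :
    (QP m N).eval x = 1 / ((N.factorial : ℝ) * (N.factorial : ℝ)) * QF m N x := by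
  unfold QP QF
  rw [eval_mul, eval_C, eval_finsetSum]
  congr 1
  apply Finset.sum_congr rfl
  intro s _
  rw [eval_mul, eval_mul, eval_DP, eval_AP, eval_AP, eval_YAp, eval_YBp]

theorem PF_zero (hm : 0 < m) (N : ℕ) : PF m N 0 = 0 := by
  unfold PF
  apply Finset.sum_eq_zero
  intro s _
  have h : dsc (cls s) 0 = 0 := by
    unfold dsc
    apply Finset.prod_eq_zero (Finset.mem_range.2 (cls_pos hm s))
    simp
  rw [h, zero_mul]

/-- **Answer to Q1 (yes).** The gap between the largest real root of the chromatic polynomial and a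
real root of an orbital chromatic polynomial can be arbitrarily large. -/
theorem result (N : ℝ) (_hN : 0 < N) :
    ∃ (V : Type) (_ : Fintype V) (_ : Nonempty V) (Γ : SimpleGraph V) (G : Subgroup (Γ ≃g Γ))
      (P Q : ℝ[X]) (lam r : ℝ),
      IsChromaticPoly Γ P ∧ IsOrbitalChromaticPoly Γ G Q ∧
      IsGreatest {x : ℝ | P.eval x = 0} lam ∧ Q.eval r = 0 ∧ lam + N ≤ r := by
  obtain ⟨m0, hm0⟩ := exists_nat_ge (N + 5)
  set m : ℕ := max m0 6 with hm
  have hm6 : 6 ≤ m := le_max_right _ _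
  have hmN : N + 5 ≤ (m : ℝ) := hm0.trans (by exact_mod_cast le_max_left m0 6)
  obtain ⟨K1, hK1⟩ := PF_pos (m := m) (by omega)
  obtain ⟨K2, hK2⟩ := Filter.eventually_atTop.1 (QF_neg hm6)
  set K : ℕ := max K1 K2 with hK
  have hP : ∀ x : ℝ, 3 ≤ x → 0 < PF m K x := hK1 K (le_max_left _ _)
  have hQ : QF m K ((m : ℝ) - 3 / 2) < 0 := hK2 K (le_max_right _ _)
  have hf : (0 : ℝ) < (K.factorial : ℝ) := by exact_mod_cast K.factorial_pos
  have hmR : (6 : ℝ) ≤ m := by exact_mod_cast hm6
  -- the chromatic polynomial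
  have hPP : PP m K ≠ 0 := by
    intro h
    have h1 := hP 3 le_rfl
    rw [← eval_PP, h, eval_zero] at h1
    exact lt_irrefl _ h1
  have h0 : (0 : ℝ) ∈ (PP m K).roots.toFinset := by
    rw [Multiset.mem_toFinset, mem_roots hPP, IsRoot.def, eval_PP]
    exact PF_zero (by omega) K
  have hne : (PP m K).roots.toFinset.Nonempty := ⟨0, h0⟩
  have hset : {x : ℝ | (PP m K).eval x = 0} = ↑((PP m K).roots.toFinset) := by
    ext x
    simp only [Set.mem_ofPred_eq, Finset.mem_coe, Multiset.mem_toFinset, mem_roots hPP, IsRoot.def]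
  have hgr : IsGreatest {x : ℝ | (PP m K).eval x = 0} ((PP m K).roots.toFinset.max' hne) := by
    rw [hset]
    exact Finset.isGreatest_max' _ hne
  have hlam : (PP m K).roots.toFinset.max' hne < 3 := by
    by_contra hc
    push Not at hc
    have h1 := hP _ hc
    have h2 : (PP m K).eval ((PP m K).roots.toFinset.max' hne) = 0 := hgr.1
    rw [eval_PP] at h2
    rw [h2] at h1
    exact lt_irrefl _ h1
  -- the orbital polynomial
  have hc0 : 0 < 1 / ((K.factorial : ℝ) * (K.factorial : ℝ)) := by positivity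
  have hneg : (QP m K).eval ((m : ℝ) - 3 / 2) < 0 := by
    rw [eval_QP]
    exact mul_neg_of_pos_of_neg hc0 hQ
  have hpos : 0 < (QP m K).eval (m : ℝ) := by
    rw [eval_QP]
    exact mul_pos hc0 (QF_pos_large (by omega) K (by linarith) le_rfl)
  have hivt := intermediate_value_Icc (f := fun x : ℝ => (QP m K).eval x)
    (a := (m : ℝ) - 3 / 2) (b := (m : ℝ)) (by linarith) (QP m K).continuous.continuousOn
  obtain ⟨r, hr, hr0⟩ := hivt (Set.mem_Icc.2 ⟨hneg.le, hpos.le⟩)
  refine ⟨Vx m K, inferInstance, ⟨Sum.inl ⟨0, by omega⟩⟩, Gam m K, Grp m K, PP m K, QP m K, _, r,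
    ?_, ?_, hgr, hr0, ?_⟩
  · intro q _
    rw [eval_PP, card_col]
  · intro q _
    rw [eval_QP, ← card_orb]
    have : orbitSetoid (Gam m K) (Grp m K) q = colSetoid (Gam m K) (Grp m K) q := rfl
    rw [this]
    field_simp
  · have := hr.1
    linarith

end

end Pool.Agent.Results.MP_fefe6a_co.UnboundedGap
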